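import Pool.Agent.R383.SE.Cross3

set_option autoImplicit false

/-!
# MP_a812b2_nt: exceptional eigenvalues and the correlations between different Maass forms

Let `f ∈ ι` run through a set of Hecke-Maass cusp forms of weight `0` for congruence subgroups, not of dihedral,
tetrahedral or octahedral type, of Laplace eigenvalue `1/4 - ν_f^2`, where `ν_f ≥ 0` or `ν_f ∈ i ℝ`; the eigenvalue is
exceptional iff `Re ν_f > 0`. Let `S` be a finite set of primes which contains the bad primes of these forms, and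
`lam f p = |λ_f(p)|` for `p ∉ S`. By Gelbart-Jacquet, Kim and Kim-Shahidi the representation
`Sym^i f = sym^i f ⊗ ω_f^(-i/2)`, `i = 2, 4`, with the trace `U_i(|λ_f(p)|)` at `p`, is cuspidal. `L(s, Sym^i f × Sym^j h)`
has no pole if `i ≠ j`, or if `i = j` and `Sym^i f`, `Sym^i h` are different; then (Jacquet, Piatetski-Shapiro, Shalika)
`Entire f h i j` holds. The existing results for an exceptional form `f` control the values of one polynomial at each
form by itself; here we study the products of the values at *different* forms.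

For a finite number of pairs let `Q = ∑_r U_{i_r}(g_r) U_{j_r}(h_r)`. We show: if `c < i_r Re ν_{g_r} + j_r Re ν_{h_r}`
for one `r`, then for every `δ > 0` and **all** large `X` the negative values of `Q` on the prime powers in
`[X^(1-δ), X]` have the sum `≥ X^c`, and if `c ≥ 1/2` then already those on the primes have the sum `≥ X^c`, and at least
`X^(2c-1)` primes in `[X^(1-δ), X]` have a negative value. So for two forms `f`, `h`, if `c < 4 (Re ν_f + Re ν_h)`, at least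
`X^(2c-1)` primes in `[X^(1-δ), X]` are such that exactly one of `|λ_f(p)|`, `|λ_h(p)|` lies between
`(√5 - 1)/2` and `(√5 + 1)/2`.
-/

namespace Pool.Agent.Results.MP_a812b2_nt.CrossCorrelations

open Filter Topology

/-- `U_i(y)`, where `U_i(2 cos t) = sin ((i+1) t) / sin t` -/
noncomputable def U (i : ℕ) (y : ℝ) : ℝ := (Polynomial.Chebyshev.S ℝ i).eval y

/-- `T_k(y)`, where `T_k(2 cos t) = 2 cos (k t)` -/
noncomputable def T (k : ℕ) (y : ℝ) : ℝ := (Polynomial.Chebyshev.C ℝ k).eval y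

variable {ι : Type*}

/-- The absolute values `lam f` of the Hecke eigenvalues (outside the finite set `S`) of Maass forms of weight `0` with
the Laplace eigenvalues `1/4 - (ν f)^2`: the Dirichlet series of `log L(s, Sym^i f × (Sym^i f)~)`, `i = 0, 2, 4`,
converges for `s > 1`. -/
structure MaassForms (S : Finset Nat.Primes) (lam : ι → {p : Nat.Primes // p ∉ S} → ℝ) (ν : ι → ℂ) : Prop where
  parameter : ∀ f, 0 ≤ (ν f).re ∧ ((ν f).re = 0 ∨ (ν f).im = 0)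
  summable : ∀ f, ∀ i : ℕ, Even i → i ≤ 4 → ∀ σ : ℝ, 1 < σ → Summable fun x : {p : Nat.Primes // p ∉ S} × ℕ =>
    U i (T (x.2 + 1) (lam f x.1)) ^ 2 / ((x.2 : ℝ) + 1) * (((x.1.1 : ℕ) : ℝ) ^ (-σ)) ^ (x.2 + 1)

/-- `L(s, Sym^i f × Sym^j h)` continues to an entire function, and so does its product with its gamma factor. -/
def Entire (S : Finset Nat.Primes) (lam : ι → {p : Nat.Primes // p ∉ S} → ℝ) (ν : ι → ℂ) (f h : ι) (i j : ℕ) : Prop :=
  ∃ G Ξ : ℂ → ℂ, Differentiable ℂ G ∧ Differentiable ℂ Ξ ∧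
    (∀ s : ℂ, 1 < s.re → G s = Complex.exp (∑' x : {p : Nat.Primes // p ∉ S} × ℕ,
      ((U i (T (x.2 + 1) (lam f x.1)) * U j (T (x.2 + 1) (lam h x.1)) / ((x.2 : ℝ) + 1) : ℝ) : ℂ) *
        (((x.1.1 : ℕ) : ℂ) ^ (-s)) ^ (x.2 + 1))) ∧
    (∀ s : ℂ, 1 < s.re → Ξ s = G s * ∏ a ∈ Finset.range (i + 1), ∏ b ∈ Finset.range (j + 1),
      Complex.Gammaℝ (s + (((i : ℂ) - 2 * a) * ν f + ((j : ℂ) - 2 * b) * ν h)))

/-- the polynomial `∑_r U_{i_r}(y_{g_r}) U_{j_r}(y_{h_r})` in the variables `y_f`, `f ∈ ι` -/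
noncomputable def Q {n : ℕ} (g h : Fin n → ι) (i j : Fin n → ℕ) (y : ι → ℝ) : ℝ :=
  ∑ r, U (i r) (y (g r)) * U (j r) (y (h r))

/-- the primes outside `S` in `[X^(1-δ), X]` with the property `E` -/
def primesIn (S : Finset Nat.Primes) (δ X : ℝ) (E : {p : Nat.Primes // p ∉ S} → Prop) :
    Set {p : Nat.Primes // p ∉ S} :=
  {p | X ^ (1 - δ) ≤ ((p.1 : ℕ) : ℝ) ∧ ((p.1 : ℕ) : ℝ) ≤ X ∧ E p}

theorem U_four (y : ℝ) : U 4 y = (y ^ 2 - |y| - 1) * (y ^ 2 + |y| - 1) := by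
  have e3 : U 4 y = y ^ 4 - 3 * y ^ 2 + 1 := by
    unfold U
    simp [R314.SX.S_four]
  rw [e3]
  have := sq_abs y
  linear_combination this

theorem U_four_neg (y : ℝ) : U 4 y < 0 ↔ |y| ∈ Set.Ioo ((√5 - 1) / 2) ((√5 + 1) / 2) := by
  have h5 : √5 ^ 2 = 5 := Real.sq_sqrt (by norm_num)
  have h50 : 0 ≤ √5 := Real.sqrt_nonneg 5
  have h52 : 2 < √5 := by
    rw [Real.lt_sqrt (by norm_num)]
    norm_num
  have ha := abs_nonneg y
  have e1 : y ^ 2 - |y| - 1 = (|y| - (√5 + 1) / 2) * (|y| + (√5 - 1) / 2) := by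
    have := sq_abs y
    linear_combination (-1 : ℝ) * this + (1 / 4 : ℝ) * h5
  have e2 : y ^ 2 + |y| - 1 = (|y| - (√5 - 1) / 2) * (|y| + (√5 + 1) / 2) := by
    have := sq_abs y
    linear_combination (-1 : ℝ) * this + (1 / 4 : ℝ) * h5
  have p1 : 0 < |y| + (√5 - 1) / 2 := by linarith
  have p2 : 0 < |y| + (√5 + 1) / 2 := by linarith
  rw [U_four, e1, e2, Set.mem_Ioo]
  constructor
  · intro h
    have h1 : (|y| - (√5 + 1) / 2) * (|y| - (√5 - 1) / 2) < 0 := by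
      by_contra hcon
      rw [not_lt] at hcon
      have : 0 ≤ ((|y| - (√5 + 1) / 2) * (|y| - (√5 - 1) / 2)) * ((|y| + (√5 - 1) / 2) * (|y| + (√5 + 1) / 2)) := by
        positivity
      nlinarith
    rcases mul_neg_iff.1 h1 with h2 | h2
    · linarith
    · exact ⟨by linarith, by linarith⟩
  · rintro ⟨h1, h2⟩
    have q1 : |y| - (√5 + 1) / 2 < 0 := by linarith
    have q2 : 0 < |y| - (√5 - 1) / 2 := by linarith
    exact mul_neg_of_neg_of_pos (mul_neg_of_neg_of_pos q1 p1) (mul_pos q2 p2)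

theorem U_four_pos (y : ℝ) (h : 0 < U 4 y) : |y| ∉ Set.Ioo ((√5 - 1) / 2) ((√5 + 1) / 2) := fun h1 =>
  absurd ((U_four_neg y).2 h1) (not_lt.2 h.le)

open scoped Classical in
/-- the general theorem -/
theorem general {S : Finset Nat.Primes} {lam : ι → {p : Nat.Primes // p ∉ S} → ℝ} {ν : ι → ℂ}
    (F : MaassForms S lam ν) {δ : ℝ} (hδ : 0 < δ) (n : ℕ) (g h : Fin n → ι) (i j : Fin n → ℕ)
    (hij : ∀ r, Even (i r) ∧ i r ≤ 4 ∧ Even (j r) ∧ j r ≤ 4 ∧ Entire S lam ν (g r) (h r) (i r) (j r))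
    (r : Fin n) (c : ℝ) (hc0 : 0 ≤ c) (hc : c < i r * (ν (g r)).re + j r * (ν (h r)).re) :
    (∀ᶠ X : ℝ in atTop, X ^ c ≤ ∑' x : {p : Nat.Primes // p ∉ S} × ℕ,
      if X ^ (1 - δ) ≤ ((x.1.1 : ℕ) : ℝ) ^ (x.2 + 1) ∧ ((x.1.1 : ℕ) : ℝ) ^ (x.2 + 1) ≤ X then
        max 0 (-Q g h i j fun f => T (x.2 + 1) (lam f x.1)) else 0) ∧
    (1 / 2 ≤ c →
      (∀ᶠ X : ℝ in atTop, X ^ c ≤ ∑' p : {p : Nat.Primes // p ∉ S},
        if X ^ (1 - δ) ≤ ((p.1 : ℕ) : ℝ) ∧ ((p.1 : ℕ) : ℝ) ≤ X then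
          max 0 (-Q g h i j fun f => lam f p) else 0) ∧
      ∀ᶠ X : ℝ in atTop, X ^ (2 * c - 1) ≤
        ((primesIn S δ X fun p => (Q g h i j fun f => lam f p) < 0).ncard : ℝ)) := by
  have hT : ∀ (f : ι) (x : {p : Nat.Primes // p ∉ S} × ℕ), T (x.2 + 1) (lam f x.1) =
      (Polynomial.Chebyshev.C ℝ ((x.2 : ℤ) + 1)).eval (lam f x.1) := fun f x => by
    unfold T
    push_cast
    rfl
  have hS : ∀ f, ∀ i : ℕ, Even i → i ≤ 4 → R383.SE.SumHyp (lam f) i := by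
    intro f i h1 h2 σ hσ
    refine (F.summable f i h1 h2 σ hσ).congr fun x => ?_
    rw [hT]
    rfl
  have hall := fun r => (hij r).2.2.2.2
  choose G Ξ hG hΞ hE hid using hall
  have hE' : ∀ r, ∀ s : ℂ, 1 < s.re → G r s = Complex.exp (W189.TP.DS
      (R383.SE.D3 (lam (g r)) (lam (h r)) (i r) (j r)) W189.TP.LL s) := by
    intro r s hs
    rw [hE r s hs]
    congr 1
    unfold W189.TP.DS
    refine tsum_congr fun x => ?_
    rw [W189.TP.exp_LL, hT, hT]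
    rfl
  set x0 : ℝ := i r * (ν (g r)).re + j r * (ν (h r)).re with hx0
  -- the position of the zero
  have hpos : ∀ (m : ℕ) (f : ι), Even m → ∃ a ∈ Finset.range (m + 1), ((m : ℂ) - 2 * a) * ν f = -((m * (ν f).re : ℝ) : ℂ) := by
    intro m f hm
    rcases (F.parameter f).2 with h1 | h1
    · obtain ⟨l, hl⟩ := hm
      refine ⟨l, by rw [Finset.mem_range]; omega, ?_⟩
      rw [h1, hl]
      push_cast
      ring
    · refine ⟨m, by rw [Finset.mem_range]; omega, ?_⟩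
      have h2 : ν f = ((ν f).re : ℂ) := by
        apply Complex.ext
        · simp
        · simp [h1]
      rw [h2]
      simp only [Complex.ofReal_re]
      push_cast
      ring
  obtain ⟨a, ha, ha2⟩ := hpos (i r) (g r) (hij r).1
  obtain ⟨b, hb, hb2⟩ := hpos (j r) (h r) (hij r).2.2.1
  have hz : G r (x0 : ℂ) = 0 := by
    refine R314.SX.gam_zero' (Finset.range (i r + 1) ×ˢ Finset.range (j r + 1))
      (fun q : ℕ × ℕ => (((i r : ℂ) - 2 * q.1) * ν (g r) + ((j r : ℂ) - 2 * q.2) * ν (h r))) (hG r) (hΞ r)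
      (fun s hs => by rw [hid r s hs, Finset.prod_product]) (i := (a, b)) (Finset.mem_product.2 ⟨ha, hb⟩) ?_
    show ((i r : ℂ) - 2 * a) * ν (g r) + ((j r : ℂ) - 2 * b) * ν (h r) = -(x0 : ℂ)
    rw [ha2, hb2, hx0]
    push_cast
    ring
  have hfin := R383.SE.cross_fin (A := fun r => lam (g r)) (B := fun r => lam (h r)) (I := i) (J := j)
    (fun r => ⟨(hij r).1, (hij r).2.1⟩) (fun r => ⟨(hij r).2.2.1, (hij r).2.2.2.1⟩)
    (fun r => hS _ _ (hij r).1 (hij r).2.1) (fun r => hS _ _ (hij r).2.2.1 (hij r).2.2.2.1)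
    (fun r => hS _ 4 (by decide) le_rfl) (fun r => hS _ 4 (by decide) le_rfl) hG hE' hc0 hc hz hδ
  have ht : ∀ x : {p : Nat.Primes // p ∉ S} × ℕ, R383.SE.t3 (fun r => lam (g r)) (fun r => lam (h r)) i j x =
      Q g h i j fun f => T (x.2 + 1) (lam f x.1) := by
    intro x
    unfold R383.SE.t3 Q
    refine Finset.sum_congr rfl fun r _ => ?_
    show _ = U (i r) (T (x.2 + 1) (lam (g r) x.1)) * U (j r) (T (x.2 + 1) (lam (h r) x.1))
    rw [hT, hT]
    rfl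
  have ht0 : ∀ p : {p : Nat.Primes // p ∉ S}, R383.SE.t3 (fun r => lam (g r)) (fun r => lam (h r)) i j (p, 0) =
      Q g h i j fun f => lam f p := by
    intro p
    rw [ht]
    congr 1
    funext f
    unfold T
    simp [Polynomial.Chebyshev.C_one]
  refine ⟨?_, fun hc2 => ⟨?_, ?_⟩⟩
  · refine hfin.1.mono fun X hX => hX.trans (le_of_eq (tsum_congr fun x => ?_))
    unfold R383.SE.N3
    rw [ht]
  · refine (hfin.2.1 hc2).mono fun X hX => hX.trans (le_of_eq (tsum_congr fun p => ?_))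
    unfold R383.SE.N3
    rw [ht0]
  · refine (hfin.2.2 hc2).mono fun X hX => hX.trans (le_of_eq ?_)
    congr 2
    ext p
    simp only [Set.mem_ofPred_eq, primesIn, ht0]

open scoped Classical in
/-- **Correlations of Maass forms with exceptional eigenvalues, at every scale.**
1. For finitely many pairs `(g_r, h_r)` of forms and even `i_r, j_r ≤ 4` with `Entire`, and
   `0 ≤ c < i_r Re ν_{g_r} + j_r Re ν_{h_r}` for one `r`: for every large `X` the prime powers in `[X^(1-δ), X]` carry a mass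
   `≥ X^c` of negative values of `Q`; if `1/2 ≤ c`, the primes in `[X^(1-δ), X]` do, and at least `X^(2c-1)` of them have a
   negative value of `Q`.
2. For two forms `f₁`, `f₂` with entire `L(s, Sym^4 f₁ × Sym^4 f₂)` and `1/2 ≤ c < 4 (Re ν₁ + Re ν₂)`, for every large
   `X` exactly one of `|λ₁(p)|`, `|λ₂(p)|` lies in `((√5 - 1)/2, (√5 + 1)/2)` for at least `X^(2c-1)` primes `p` in
   `[X^(1-δ), X]`.
3. If for some `c ≥ 1/2` there are arbitrarily large `X` with fewer than `X^(2c-1)` such primes, then one of the two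
   Laplace eigenvalues is at least `1/4 - (c/8)^2`. -/
theorem result {S : Finset Nat.Primes} {lam : ι → {p : Nat.Primes // p ∉ S} → ℝ} {ν : ι → ℂ}
    (F : MaassForms S lam ν) {δ : ℝ} (hδ : 0 < δ) :
    (∀ (n : ℕ) (g h : Fin n → ι) (i j : Fin n → ℕ),
      (∀ r, Even (i r) ∧ i r ≤ 4 ∧ Even (j r) ∧ j r ≤ 4 ∧ Entire S lam ν (g r) (h r) (i r) (j r)) →
      ∀ (r : Fin n) (c : ℝ), 0 ≤ c → c < i r * (ν (g r)).re + j r * (ν (h r)).re →
      (∀ᶠ X : ℝ in atTop, X ^ c ≤ ∑' x : {p : Nat.Primes // p ∉ S} × ℕ,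
        if X ^ (1 - δ) ≤ ((x.1.1 : ℕ) : ℝ) ^ (x.2 + 1) ∧ ((x.1.1 : ℕ) : ℝ) ^ (x.2 + 1) ≤ X then
          max 0 (-Q g h i j fun f => T (x.2 + 1) (lam f x.1)) else 0) ∧
      (1 / 2 ≤ c →
        (∀ᶠ X : ℝ in atTop, X ^ c ≤ ∑' p : {p : Nat.Primes // p ∉ S},
          if X ^ (1 - δ) ≤ ((p.1 : ℕ) : ℝ) ∧ ((p.1 : ℕ) : ℝ) ≤ X then
            max 0 (-Q g h i j fun f => lam f p) else 0) ∧
        ∀ᶠ X : ℝ in atTop, X ^ (2 * c - 1) ≤
          ((primesIn S δ X fun p => (Q g h i j fun f => lam f p) < 0).ncard : ℝ))) ∧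
    (∀ f₁ f₂ : ι, Entire S lam ν f₁ f₂ 4 4 → ∀ c : ℝ, 1 / 2 ≤ c →
      (c < 4 * ((ν f₁).re + (ν f₂).re) → ∀ᶠ X : ℝ in atTop, X ^ (2 * c - 1) ≤
        ((primesIn S δ X fun p => Xor (|lam f₁ p| ∈ Set.Ioo ((√5 - 1) / 2) ((√5 + 1) / 2))
          (|lam f₂ p| ∈ Set.Ioo ((√5 - 1) / 2) ((√5 + 1) / 2))).ncard : ℝ)) ∧
      ((∃ᶠ X : ℝ in atTop, ((primesIn S δ X fun p => Xor (|lam f₁ p| ∈ Set.Ioo ((√5 - 1) / 2) ((√5 + 1) / 2))
          (|lam f₂ p| ∈ Set.Ioo ((√5 - 1) / 2) ((√5 + 1) / 2))).ncard : ℝ) < X ^ (2 * c - 1)) →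
        1 / 4 - (c / 8) ^ 2 ≤ max (1 / 4 - (ν f₁).re ^ 2) (1 / 4 - (ν f₂).re ^ 2))) := by
  refine ⟨fun n g h i j hij r c hc0 hc => general F hδ n g h i j hij r c hc0 hc, fun f₁ f₂ h12 c hc2 => ?_⟩
  have key : c < 4 * ((ν f₁).re + (ν f₂).re) → ∀ᶠ X : ℝ in atTop, X ^ (2 * c - 1) ≤
      ((primesIn S δ X fun p => Xor (|lam f₁ p| ∈ Set.Ioo ((√5 - 1) / 2) ((√5 + 1) / 2))
        (|lam f₂ p| ∈ Set.Ioo ((√5 - 1) / 2) ((√5 + 1) / 2))).ncard : ℝ) := by
    intro hc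
    have h1 := (general F hδ 1 (fun _ => f₁) (fun _ => f₂) (fun _ => 4) (fun _ => 4)
      (fun r => ⟨by decide, le_rfl, by decide, le_rfl, h12⟩) 0 c (by linarith) (by push_cast; linarith)).2 hc2
    filter_upwards [h1.2, eventually_gt_atTop 0] with X hX hX0
    refine hX.trans ?_
    have hfin : (primesIn S δ X fun p => Xor (|lam f₁ p| ∈ Set.Ioo ((√5 - 1) / 2) ((√5 + 1) / 2))
        (|lam f₂ p| ∈ Set.Ioo ((√5 - 1) / 2) ((√5 + 1) / 2))).Finite := by
      refine (Pool.Agent.TH949.TX.primes_log_fin (S := S) (Real.log X)).subset fun p hp => ?_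
      have hp0 : (0 : ℝ) < ((p.1 : ℕ) : ℝ) := by exact_mod_cast p.1.2.pos
      show Real.log ((p.1 : ℕ) : ℝ) ≤ Real.log X
      exact (Real.log_le_log_iff hp0 hX0).2 hp.2.1
    have hsub : (primesIn S δ X fun p => (Q (fun _ : Fin 1 => f₁) (fun _ => f₂) (fun _ => 4) (fun _ => 4)
        fun f => lam f p) < 0) ⊆ primesIn S δ X fun p =>
        Xor (|lam f₁ p| ∈ Set.Ioo ((√5 - 1) / 2) ((√5 + 1) / 2))
          (|lam f₂ p| ∈ Set.Ioo ((√5 - 1) / 2) ((√5 + 1) / 2)) := by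
      rintro p ⟨hp1, hp2, hp3⟩
      refine ⟨hp1, hp2, ?_⟩
      unfold Q at hp3
      rw [Fin.sum_univ_one] at hp3
      rcases mul_neg_iff.1 hp3 with h2 | h2
      · exact Or.inr ⟨(U_four_neg _).1 h2.2, U_four_pos _ h2.1⟩
      · exact Or.inl ⟨(U_four_neg _).1 h2.1, U_four_pos _ h2.2⟩
    exact_mod_cast Set.ncard_le_ncard hsub hfin
  refine ⟨key, fun hfr => ?_⟩
  have h2 : 4 * ((ν f₁).re + (ν f₂).re) ≤ c := by
    by_contra hcon
    rw [not_le] at hcon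
    obtain ⟨X, hX1, hX2⟩ := (hfr.and_eventually (key hcon)).exists
    exact absurd hX1 (not_lt.2 hX2)
  have p1 := (F.parameter f₁).1
  have p2 := (F.parameter f₂).1
  rcases le_total (ν f₁).re (ν f₂).re with h3 | h3
  · refine le_max_of_le_left ?_
    have : (ν f₁).re ≤ c / 8 := by linarith
    nlinarith
  · refine le_max_of_le_right ?_
    have : (ν f₂).re ≤ c / 8 := by linarith
    nlinarith

end Pool.Agent.Results.MP_a812b2_nt.CrossCorrelations
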