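import Pool.Agent.R314.SX.Maass3

set_option autoImplicit false

/-!
# MP_a812b2_nt: what an exceptional eigenvalue forces at every scale

Let `f` be a Hecke-Maass cusp form of weight `0` for a congruence subgroup with Laplace eigenvalue
`1/4 - θ^2`, `0 < θ < 1/2` (an exceptional eigenvalue), `S` a finite set of primes containing the bad
ones, and `lam p = |λ_f(p)|` for `p ∉ S` (for trivial nebentypus one may take `lam p = λ_f(p)`). Since
`f` is exceptional it is not of dihedral, tetrahedral or octahedral type, so by Gelbart-Jacquet, Kim and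
Kim-Shahidi `sym^i f` is cuspidal for `i ≤ 4` and the structure `ExceptionalForm` below holds.

`P_e = ∑_{i,j} e_{ij} U_i U_j - ∑_i e_{ii}`, `U_i` the Chebyshev polynomial (`U_i(2 cos t) = sin((i+1)t)/sin t`)
and `e_{ij}` natural numbers, zero unless `i ≤ j ≤ 4` and `i + j` is even.
-/

namespace Pool.Agent.Results.MP_a812b2_nt.ExceptionalEveryScale

open Filter Topology

/-- `U_i(y)`, where `U_i(2 cos t) = sin ((i+1) t) / sin t` -/
noncomputable def U (i : ℕ) (y : ℝ) : ℝ := (Polynomial.Chebyshev.S ℝ i).eval y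

/-- `T_k(y)`, where `T_k(2 cos t) = 2 cos (k t)` -/
noncomputable def T (k : ℕ) (y : ℝ) : ℝ := (Polynomial.Chebyshev.C ℝ k).eval y

/-- The Hecke eigenvalues `lam` (outside the finite set `S`) of a cusp form with the exceptional Laplace
eigenvalue `1/4 - θ^2`, with the analytic properties of the Rankin-Selberg products
`L(s, sym^i f × (sym^j f)~)` for `i ≤ j ≤ 4`, `i + j` even. -/
structure ExceptionalForm (S : Finset Nat.Primes) (lam : {p : Nat.Primes // p ∉ S} → ℝ) (θ : ℝ) : Prop where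
  pos : 0 < θ
  /-- the Dirichlet series of `log L(s, sym^i f × (sym^i f)~)` converges for `s > 1` -/
  summable : ∀ i : ℕ, i ≤ 4 → ∀ σ : ℝ, 1 < σ → Summable fun x : {p : Nat.Primes // p ∉ S} × ℕ =>
    U i (T (x.2 + 1) (lam x.1)) ^ 2 / ((x.2 : ℝ) + 1) * (((x.1.1 : ℕ) : ℝ) ^ (-σ)) ^ (x.2 + 1)
  /-- `L(s, sym^i f × (sym^j f)~)` continues to an entire function (times `s - 1` if `i = j`), and so does
  its product (times `s` if `i = j`) with its gamma factor -/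
  continuation : ∀ i j : ℕ, i ≤ j → j ≤ 4 → Even (i + j) → ∃ G Ξ : ℂ → ℂ,
    Differentiable ℂ G ∧ Differentiable ℂ Ξ ∧
    (∀ s : ℂ, 1 < s.re → G s = (if i = j then s - 1 else 1) *
      Complex.exp (∑' x : {p : Nat.Primes // p ∉ S} × ℕ,
        ((U i (T (x.2 + 1) (lam x.1)) * U j (T (x.2 + 1) (lam x.1)) / ((x.2 : ℝ) + 1) : ℝ) : ℂ) *
          (((x.1.1 : ℕ) : ℂ) ^ (-s)) ^ (x.2 + 1))) ∧
    (∀ s : ℂ, 1 < s.re → Ξ s = (if i = j then s else 1) * G s *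
      ∏ a ∈ Finset.range (i + 1), ∏ b ∈ Finset.range (j + 1),
        Complex.Gammaℝ (s + ((((i : ℝ) - 2 * a) + ((j : ℝ) - 2 * b)) * θ : ℝ)))

/-- the polynomial `∑ e_{ij} U_i U_j - ∑ e_{ii}` -/
noncomputable def P (e : ℕ → ℕ → ℕ) (y : ℝ) : ℝ :=
  ∑ i ∈ Finset.range 5, ∑ j ∈ Finset.range 5, (e i j : ℝ) * (U i y * U j y) - ∑ i ∈ Finset.range 5, (e i i : ℝ)

open scoped Classical in
/-- Let `e i j ≠ 0`, `0 < i + j`, `0 ≤ c`, `0 < δ`. If `c < (i + j) θ` then for every large `X` the prime powers in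
`[X^(1-δ), X]` carry a mass `≥ X^c` of negative values of `P e`, and if also `1/2 ≤ c` then
`P e (lam p) < 0` for at least `X^c` primes `p` in `[X^(1-δ), X]`. So if for some `c ≥ 1/2` and `δ > 0`
there are arbitrarily large `X` with fewer than `X^c` such primes, the Laplace eigenvalue `1/4 - θ^2` is at least
`1/4 - (c / (i + j))^2`. -/
theorem result {S : Finset Nat.Primes} {lam : {p : Nat.Primes // p ∉ S} → ℝ} {θ : ℝ}
    (f : ExceptionalForm S lam θ) {e : ℕ → ℕ → ℕ}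
    (he : ∀ i j, e i j ≠ 0 → i ≤ j ∧ j ≤ 4 ∧ Even (i + j)) {i j : ℕ} (hij : e i j ≠ 0) (h0 : 0 < i + j)
    {c : ℝ} (hc0 : 0 ≤ c) {δ : ℝ} (hδ : 0 < δ) :
    (c < (i + j) * θ → ∀ᶠ X : ℝ in atTop, X ^ c ≤ ∑' x : {p : Nat.Primes // p ∉ S} × ℕ,
      if X ^ (1 - δ) ≤ ((x.1.1 : ℕ) : ℝ) ^ (x.2 + 1) ∧ ((x.1.1 : ℕ) : ℝ) ^ (x.2 + 1) ≤ X then
        max 0 (-P e (T (x.2 + 1) (lam x.1))) else 0) ∧
    (c < (i + j) * θ → 1 / 2 ≤ c → ∀ᶠ X : ℝ in atTop, X ^ c ≤
      (({p : {p : Nat.Primes // p ∉ S} | X ^ (1 - δ) ≤ ((p.1 : ℕ) : ℝ) ∧ ((p.1 : ℕ) : ℝ) ≤ X ∧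
        P e (lam p) < 0}.ncard : ℕ) : ℝ)) ∧
    (1 / 2 ≤ c → (∃ᶠ X : ℝ in atTop, (({p : {p : Nat.Primes // p ∉ S} | X ^ (1 - δ) ≤ ((p.1 : ℕ) : ℝ) ∧
        ((p.1 : ℕ) : ℝ) ≤ X ∧ P e (lam p) < 0}.ncard : ℕ) : ℝ) < X ^ c) →
      1 / 4 - (c / (i + j)) ^ 2 ≤ 1 / 4 - θ ^ 2) ∧
    ∀ y : ℝ, P e y < 0 → |y| < 2 := by
  have hT : ∀ (x : {p : Nat.Primes // p ∉ S} × ℕ), T (x.2 + 1) (lam x.1) =
      (Polynomial.Chebyshev.C ℝ ((x.2 : ℤ) + 1)).eval (lam x.1) := fun x => by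
    unfold T
    push_cast
    rfl
  have hsum : ∀ i : ℕ, i ≤ 4 → ∀ σ : ℝ, 1 < σ → Summable fun x : {p : Nat.Primes // p ∉ S} × ℕ =>
      R314.SX.tr lam i x ^ 2 / ((x.2 : ℝ) + 1) * (((x.1.1 : ℕ) : ℝ) ^ (-σ)) ^ (x.2 + 1) := by
    intro i hi σ hσ
    refine (f.summable i hi σ hσ).congr fun x => ?_
    rw [hT]
    rfl
  have hcont := f.continuation
  simp only [hT] at hcont ⊢
  refine ⟨fun hc => (R314.SX.maass_fin hsum hcont he hc0 hij hc hδ).1,
    fun hc => (R314.SX.maass_fin hsum hcont he hc0 hij hc hδ).2, fun hc2 hfr => ?_, fun y hy => ?_⟩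
  · have h2 : (i + j : ℝ) * θ ≤ c := by
      by_contra hcon
      rw [not_le] at hcon
      have h3 := (R314.SX.maass_fin hsum hcont he hc0 hij hcon hδ).2 hc2
      obtain ⟨X, hX1, hX2⟩ := (hfr.and_eventually h3).exists
      exact absurd hX1 (not_lt.2 hX2)
    have h4 : (0 : ℝ) < (i : ℝ) + j := by exact_mod_cast h0
    have h5 : θ ≤ c / (i + j) := by
      rw [le_div_iff₀ h4]
      linarith
    have := f.pos
    nlinarith
  · by_contra hcon
    rw [not_lt] at hcon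
    have := (R314.SX.tt_ge lam he y).2 hcon
    exact absurd hy (not_lt.2 this)

end Pool.Agent.Results.MP_a812b2_nt.ExceptionalEveryScale
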