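import Pool.Agent.R383.SE.Main
import Pool.Agent.Y243.SP.Sph6

set_option autoImplicit false

/-!
# MP_a812b2_nt: an exceptional eigenvalue and the primes which split completely in an abelian number field

Let `f` be a Hecke-Maass cusp form of weight `0` for a congruence subgroup with Laplace eigenvalue
`1/4 - θ^2`, `0 < θ < 1/2` (an exceptional eigenvalue), let `X` be a group of Dirichlet characters modulo `q` and `K`
the abelian number field which belongs to `X`: a prime `p ∤ q` splits completely in `K` iff `χ(p) = 1` for all `χ ∈ X`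
(for the group of all characters: iff `p ≡ 1 mod q`). Let `S` be a finite set of primes which contains the bad primes
and the divisors of `q`, and `lam p = λ_f(p)` for `p ∉ S` (`lam p = |λ_f(p)|` if the nebentypus `ω` is not trivial; the
products below are then to be twisted by `ω^((j-i)/2)`).

For all `e_{ij} ≥ 0` (`i ≤ j ≤ 4`, `i + j` even) let `P_e = ∑ e_{ij} U_i U_j - ∑ e_{ii}`, with the Chebyshev polynomials
`U_i(2 cos t) = sin((i+1)t)/sin t`. We show: if `e_{ij} ≠ 0` and `c < (i + j) θ`, and if no `L(s, χ)`, `χ ∈ X`, has a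
real zero between `c` and `1`, which is proved here for the divisors `q` of `24` and every `c ≥ 0`, then for every
`δ > 0` and **all** large `Y` the primes which split completely in `K` carry, in `[Y^(1-δ), Y]`, a mass `≥ Y^c` of
negative values of `P_e`, and if `c ≥ 1/2` at least `Y^c` of them satisfy `P_e(λ_f(p)) < 0`, hence `|λ_f(p)| < 2`: `f` is
tempered at `p`.

An exceptional form is not of dihedral, tetrahedral or octahedral type, not even over an abelian extension of `ℚ`, so by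
Gelbart-Jacquet, Kim and Kim-Shahidi `sym^i f`, `i ≤ 4`, is cuspidal and not isomorphic to its twist by a nontrivial
Dirichlet character, and the structure `ExceptionalForm` below holds (Jacquet, Piatetski-Shapiro, Shalika).
`ExceptionalEveryScale` is the case `X = 1`.
-/

namespace Pool.Agent.Results.MP_a812b2_nt.ExceptionalSplitPrimes

open Filter Topology DirichletCharacter

/-- `U_i(y)`, where `U_i(2 cos t) = sin ((i+1) t) / sin t` -/
noncomputable def U (i : ℕ) (y : ℝ) : ℝ := (Polynomial.Chebyshev.S ℝ i).eval y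

/-- `T_k(y)`, where `T_k(2 cos t) = 2 cos (k t)` -/
noncomputable def T (k : ℕ) (y : ℝ) : ℝ := (Polynomial.Chebyshev.C ℝ k).eval y

/-- The Hecke eigenvalues `lam` (outside the finite set `S`) of a cusp form with the exceptional Laplace
eigenvalue `1/4 - θ^2`, with the analytic properties of the Rankin-Selberg products
`L(s, sym^i f × (sym^j f)~)` for `i ≤ j ≤ 4`, `i + j` even, and of their twists by the characters in `X`. -/
structure ExceptionalForm {q : ℕ} (X : Subgroup (DirichletCharacter ℂ q)) (S : Finset Nat.Primes)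
    (lam : {p : Nat.Primes // p ∉ S} → ℝ) (θ : ℝ) : Prop where
  pos : 0 < θ
  /-- the Dirichlet series of `log L(s, sym^i f × (sym^i f)~)` converges for `s > 1` -/
  summable : ∀ i : ℕ, i ≤ 4 → ∀ σ : ℝ, 1 < σ → Summable fun x : {p : Nat.Primes // p ∉ S} × ℕ =>
    U i (T (x.2 + 1) (lam x.1)) ^ 2 / ((x.2 : ℝ) + 1) * (((x.1.1 : ℕ) : ℝ) ^ (-σ)) ^ (x.2 + 1)
  /-- `L(s, sym^i f × (sym^j f)~)` continues to an entire function (times `s - 1` if `i = j`), and so does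
  its product (times `s` if `i = j`) with its gamma factor -/
  continuation : ∀ i j : ℕ, i ≤ j → j ≤ 4 → Even (i + j) → ∃ G Ξ : ℂ → ℂ,
    Differentiable ℂ G ∧ Differentiable ℂ Ξ ∧
    (∀ s : ℂ, 1 < s.re → G s = (if i = j then s - 1 else 1) *
      Complex.exp (∑' x : {p : Nat.Primes // p ∉ S} × ℕ,
        ((U i (T (x.2 + 1) (lam x.1)) * U j (T (x.2 + 1) (lam x.1)) / ((x.2 : ℝ) + 1) : ℝ) : ℂ) *
          (((x.1.1 : ℕ) : ℂ) ^ (-s)) ^ (x.2 + 1))) ∧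
    (∀ s : ℂ, 1 < s.re → Ξ s = (if i = j then s else 1) * G s *
      ∏ a ∈ Finset.range (i + 1), ∏ b ∈ Finset.range (j + 1),
        Complex.Gammaℝ (s + ((((i : ℝ) - 2 * a) + ((j : ℝ) - 2 * b)) * θ : ℝ)))
  /-- the twists of `L(s, sym^i f × (sym^j f)~)` by the characters `χ ≠ 1` in `X` continue to entire functions -/
  twists : ∀ χ ∈ X, χ ≠ 1 → ∀ i j : ℕ, i ≤ j → j ≤ 4 → Even (i + j) → ∃ G : ℂ → ℂ, Differentiable ℂ G ∧
    ∀ s : ℂ, 1 < s.re → G s = Complex.exp (∑' x : {p : Nat.Primes // p ∉ S} × ℕ,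
      ((U i (T (x.2 + 1) (lam x.1)) * U j (T (x.2 + 1) (lam x.1)) / ((x.2 : ℝ) + 1) : ℝ) : ℂ) *
        (χ ((x.1.1 : ℕ) : ZMod q) * ((x.1.1 : ℕ) : ℂ) ^ (-s)) ^ (x.2 + 1))

/-- the polynomial `∑ e_{ij} U_i U_j - ∑ e_{ii}` -/
noncomputable def P (e : ℕ → ℕ → ℕ) (y : ℝ) : ℝ :=
  ∑ i ∈ Finset.range 5, ∑ j ∈ Finset.range 5, (e i j : ℝ) * (U i y * U j y) - ∑ i ∈ Finset.range 5, (e i i : ℝ)

open scoped Classical in
/-- **Exceptional eigenvalues and primes which split completely, at every scale.** Let `e i j ≠ 0`, `0 < i + j`,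
`0 ≤ c`, `0 < δ`, and let no `L(s, χ)`, `χ ∈ X`, have a zero in `(c, 1)` (no condition if `q` divides `24`). If
`c < (i + j) θ` then for every large `Y` the prime powers `p^k` in `[Y^(1-δ), Y]` with `χ(p)^k = 1` for all `χ ∈ X` carry
a mass `≥ Y^c` of negative values of `P e`, and if also `1/2 ≤ c` then `P e (lam p) < 0` for at least `Y^c` primes `p` in
`[Y^(1-δ), Y]` with `χ(p) = 1` for all `χ ∈ X`. So if for some `c ≥ 1/2` and `δ > 0` there are arbitrarily large `Y` with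
fewer than `Y^c` such primes, the Laplace eigenvalue `1/4 - θ^2` is at least `1/4 - (c / (i + j))^2`. -/
theorem result {q : ℕ} [NeZero q] {X : Subgroup (DirichletCharacter ℂ q)} {S : Finset Nat.Primes}
    (hS : ∀ p : Nat.Primes, (p : ℕ) ∣ q → p ∈ S) {lam : {p : Nat.Primes // p ∉ S} → ℝ} {θ : ℝ}
    (f : ExceptionalForm X S lam θ) {e : ℕ → ℕ → ℕ}
    (he : ∀ i j, e i j ≠ 0 → i ≤ j ∧ j ≤ 4 ∧ Even (i + j)) {i j : ℕ} (hij : e i j ≠ 0) (h0 : 0 < i + j)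
    {c : ℝ} (hc0 : 0 ≤ c) (hz : ¬ q ∣ 24 → ∀ χ ∈ X, ∀ σ : ℝ, c < σ → σ < 1 → LFunction χ σ ≠ 0)
    {δ : ℝ} (hδ : 0 < δ) :
    (c < (i + j) * θ → ∀ᶠ Y : ℝ in atTop, Y ^ c ≤ ∑' x : {p : Nat.Primes // p ∉ S} × ℕ,
      if Y ^ (1 - δ) ≤ ((x.1.1 : ℕ) : ℝ) ^ (x.2 + 1) ∧ ((x.1.1 : ℕ) : ℝ) ^ (x.2 + 1) ≤ Y ∧
        ∀ χ ∈ X, χ ((x.1.1 : ℕ) : ZMod q) ^ (x.2 + 1) = 1 then max 0 (-P e (T (x.2 + 1) (lam x.1))) else 0) ∧
    (c < (i + j) * θ → 1 / 2 ≤ c → ∀ᶠ Y : ℝ in atTop, Y ^ c ≤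
      (({p : {p : Nat.Primes // p ∉ S} | Y ^ (1 - δ) ≤ ((p.1 : ℕ) : ℝ) ∧ ((p.1 : ℕ) : ℝ) ≤ Y ∧
        (∀ χ ∈ X, χ ((p.1 : ℕ) : ZMod q) = 1) ∧ P e (lam p) < 0}.ncard : ℕ) : ℝ)) ∧
    (1 / 2 ≤ c → (∃ᶠ Y : ℝ in atTop, (({p : {p : Nat.Primes // p ∉ S} | Y ^ (1 - δ) ≤ ((p.1 : ℕ) : ℝ) ∧
        ((p.1 : ℕ) : ℝ) ≤ Y ∧ (∀ χ ∈ X, χ ((p.1 : ℕ) : ZMod q) = 1) ∧ P e (lam p) < 0}.ncard : ℕ) : ℝ) < Y ^ c) →
      1 / 4 - (c / (i + j)) ^ 2 ≤ 1 / 4 - θ ^ 2) ∧
    ∀ y : ℝ, P e y < 0 → |y| < 2 := by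
  have hT : ∀ (x : {p : Nat.Primes // p ∉ S} × ℕ), T (x.2 + 1) (lam x.1) =
      (Polynomial.Chebyshev.C ℝ ((x.2 : ℤ) + 1)).eval (lam x.1) := fun x => by
    unfold T
    push_cast
    rfl
  have hT1 : ∀ p : {p : Nat.Primes // p ∉ S}, (Polynomial.Chebyshev.C ℝ (((0 : ℕ) : ℤ) + 1)).eval (lam p) = lam p := by
    intro p
    simp [Polynomial.Chebyshev.C_one]
  have hsum : ∀ i : ℕ, i ≤ 4 → ∀ σ : ℝ, 1 < σ → Summable fun x : {p : Nat.Primes // p ∉ S} × ℕ =>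
      R314.SX.tr lam i x ^ 2 / ((x.2 : ℝ) + 1) * (((x.1.1 : ℕ) : ℝ) ^ (-σ)) ^ (x.2 + 1) := by
    intro i hi σ hσ
    refine (f.summable i hi σ hσ).congr fun x => ?_
    rw [hT]
    rfl
  have hcont : ∀ i j : ℕ, i ≤ j → j ≤ 4 → Even (i + j) → ∃ G Ξ : ℂ → ℂ, Differentiable ℂ G ∧ Differentiable ℂ Ξ ∧
      (∀ s : ℂ, 1 < s.re → G s = (if i = j then s - 1 else 1) *
        Complex.exp (W189.TP.DS (R314.SX.D2 lam i j) W189.TP.LL s)) ∧
      (∀ s : ℂ, 1 < s.re → Ξ s = (if i = j then s else 1) * G s * ∏ a ∈ Finset.range (i + 1),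
        ∏ b ∈ Finset.range (j + 1),
          Complex.Gammaℝ (s + ((((i : ℝ) - 2 * a) + ((j : ℝ) - 2 * b)) * θ : ℝ))) := by
    intro i j h1 h2 h3
    obtain ⟨G, Ξ, hG, hΞ, hE, hid⟩ := f.continuation i j h1 h2 h3
    refine ⟨G, Ξ, hG, hΞ, fun s hs => ?_, hid⟩
    rw [hE s hs]
    congr 2
    unfold W189.TP.DS
    refine tsum_congr fun x => ?_
    rw [W189.TP.exp_LL, hT]
    rfl
  have htw : ∀ χ ∈ X, χ ≠ 1 → ∀ i j : ℕ, i ≤ j → j ≤ 4 → Even (i + j) → ∃ G : ℂ → ℂ, Differentiable ℂ G ∧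
      ∀ s : ℂ, 1 < s.re → G s = Complex.exp (R383.SE.DC χ (R314.SX.D2 lam i j) s) := by
    intro χ hχ h1 i j h2 h3 h4
    obtain ⟨G, hG, hE⟩ := f.twists χ hχ h1 i j h2 h3 h4
    refine ⟨G, hG, fun s hs => ?_⟩
    rw [hE s hs]
    congr 1
    unfold R383.SE.DC
    refine tsum_congr fun x => ?_
    rw [W189.TP.exp_LL, hT, mul_pow]
    rfl
  have hz' : ∀ χ ∈ X, ∀ σ : ℝ, c < σ → σ < 1 → LFunction χ σ ≠ 0 := by
    intro χ hχ σ h1 h2
    by_cases hq : q ∣ 24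
    · exact Y243.SP.ne_of_dvd hq χ (by linarith) h2
    · exact hz hq χ hχ σ h1 h2
  have hneg : ∀ y : ℝ, P e y < 0 → |y| < 2 := fun y hy => by
    by_contra hcon
    rw [not_lt] at hcon
    have := (R314.SX.tt_ge lam he y).2 hcon
    exact absurd hy (not_lt.2 this)
  set C : ℝ := 2 * (∑ i ∈ Finset.range 5, ∑ j ∈ Finset.range 5, (e i j : ℝ)) + (R314.SX.EE' e : ℝ) + 1 with hC
  have hCpos : 0 < C := by positivity
  have hfin : c < (i + j) * θ → _ := fun hc => R314.SX.gen_fin (t := R383.SE.tc X lam e) (C := C) hCpos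
    (fun x => by
      unfold R383.SE.tc
      split_ifs
      · exact (R314.SX.tt_ge lam he _).1
      · rw [neg_zero]
        exact hCpos.le)
    (R383.SE.chi_key2 X (R383.SE.chi_key hS X hsum hcont htw he hc0 hz' hij hc hδ))
  have hset : ∀ Y : ℝ, {p : {p : Nat.Primes // p ∉ S} | Y ^ (1 - δ) ≤ ((p.1 : ℕ) : ℝ) ∧ ((p.1 : ℕ) : ℝ) ≤ Y ∧
      R383.SE.tc X lam e (p, 0) < 0} = {p : {p : Nat.Primes // p ∉ S} | Y ^ (1 - δ) ≤ ((p.1 : ℕ) : ℝ) ∧
      ((p.1 : ℕ) : ℝ) ≤ Y ∧ (∀ χ ∈ X, χ ((p.1 : ℕ) : ZMod q) = 1) ∧ P e (lam p) < 0} := by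
    intro Y
    ext p
    simp only [Set.mem_setOf_eq]
    refine and_congr_right fun _ => and_congr_right fun _ => ?_
    unfold R383.SE.tc R314.SX.tt
    simp only [zero_add, pow_one]
    rw [hT1]
    split_ifs with h
    · exact ⟨fun h1 => ⟨h, h1⟩, fun h1 => h1.2⟩
    · exact ⟨fun h1 => absurd h1 (lt_irrefl _), fun h1 => absurd h1.1 h⟩
  refine ⟨fun hc => ?_, fun hc hc2 => ?_, fun hc2 hfr => ?_, hneg⟩
  · refine (hfin hc).1.mono fun Y hY => hY.trans (le_of_eq (tsum_congr fun x => ?_))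
    unfold R383.SE.tc R314.SX.tt
    rw [hT]
    by_cases h1 : Y ^ (1 - δ) ≤ ((x.1.1 : ℕ) : ℝ) ^ (x.2 + 1) ∧ ((x.1.1 : ℕ) : ℝ) ^ (x.2 + 1) ≤ Y
    · rw [if_pos h1]
      by_cases h2 : ∀ χ ∈ X, χ ((x.1.1 : ℕ) : ZMod q) ^ (x.2 + 1) = 1
      · rw [if_pos h2, if_pos ⟨h1.1, h1.2, h2⟩]
        rfl
      · rw [if_neg h2, if_neg (fun h3 => h2 h3.2.2), neg_zero, max_self]
    · rw [if_neg h1, if_neg (fun h3 => h1 ⟨h3.1, h3.2.1⟩)]
  · refine ((hfin hc).2.2 hc2).mono fun Y hY => ?_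
    rw [hset] at hY
    exact hY
  · have h2 : (i + j : ℝ) * θ ≤ c := by
      by_contra hcon
      rw [not_le] at hcon
      have h3 := (hfin hcon).2.2 hc2
      obtain ⟨Y, hY1, hY2⟩ := (hfr.and_eventually h3).exists
      rw [hset] at hY2
      exact absurd hY1 (not_lt.2 hY2)
    have h4 : (0 : ℝ) < (i : ℝ) + j := by exact_mod_cast h0
    have h5 : θ ≤ c / (i + j) := by
      rw [le_div_iff₀ h4]
      linarith
    have := f.pos
    nlinarith

end Pool.Agent.Results.MP_a812b2_nt.ExceptionalSplitPrimes
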