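import Pool.Agent.R484.SJa

set_option autoImplicit false

/-!
# MP_a812b2_nt: one exceptional eigenvalue makes whole families of forms tempered at many primes

Let `g ∈ ι` run through a finite family of Hecke eigenforms (holomorphic or Maass, for congruence subgroups, not
of dihedral, tetrahedral or octahedral type), `S` a finite set of primes containing the bad ones and
`lam g p = |λ_g(p)|` for `p ∉ S`. By Gelbart-Jacquet, Kim and Kim-Shahidi `sym^i g` is cuspidal for `i ≤ 4`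
and the structure `SymmetricPowers` holds. One member `f` of the family has an exceptional Laplace
eigenvalue `1/4 - θ^2`, `0 < θ < 1/2` (structure `Exceptional`).

`P_e = ∑_{i,j} e_{ij} U_i U_j - ∑_i e_{ii}`, `U_i` the Chebyshev polynomial (`U_i(2 cos t) = sin((i+1)t)/sin t`)
and `e_{ij}` natural numbers, zero unless `i ≤ j ≤ 4` and `i + j` is even. Each member `g` has its own `e = e^g`.
-/

namespace Pool.Agent.Results.MP_a812b2_nt.JointTemperedness

open Filter Topology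

/-- `U_i(y)`, where `U_i(2 cos t) = sin ((i+1) t) / sin t` -/
noncomputable def U (i : ℕ) (y : ℝ) : ℝ := (Polynomial.Chebyshev.S ℝ i).eval y

/-- `T_k(y)`, where `T_k(2 cos t) = 2 cos (k t)` -/
noncomputable def T (k : ℕ) (y : ℝ) : ℝ := (Polynomial.Chebyshev.C ℝ k).eval y

/-- `G` is entire and equal to `L(s, sym^i × (sym^j)~)` for `Re s > 1`, times `s - 1` if `i = j`. -/
def Continues (S : Finset Nat.Primes) (lam : {p : Nat.Primes // p ∉ S} → ℝ) (i j : ℕ) (G : ℂ → ℂ) : Prop :=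
  Differentiable ℂ G ∧ ∀ s : ℂ, 1 < s.re → G s = (if i = j then s - 1 else 1) *
    Complex.exp (∑' x : {p : Nat.Primes // p ∉ S} × ℕ,
      ((U i (T (x.2 + 1) (lam x.1)) * U j (T (x.2 + 1) (lam x.1)) / ((x.2 : ℝ) + 1) : ℝ) : ℂ) *
        (((x.1.1 : ℕ) : ℂ) ^ (-s)) ^ (x.2 + 1))

/-- The Hecke eigenvalues `lam` (outside the finite set `S`) of a form whose symmetric powers up to the fourth
have the analytic properties of cuspidal representations: the Dirichlet series of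
`log L(s, sym^i × (sym^i)~)` converges for `s > 1`, and `L(s, sym^i × (sym^j)~)` continues to an entire
function, times `s - 1` if `i = j`, for `i ≤ j ≤ 4`, `i + j` even. -/
structure SymmetricPowers (S : Finset Nat.Primes) (lam : {p : Nat.Primes // p ∉ S} → ℝ) : Prop where
  summable : ∀ i : ℕ, i ≤ 4 → ∀ σ : ℝ, 1 < σ → Summable fun x : {p : Nat.Primes // p ∉ S} × ℕ =>
    U i (T (x.2 + 1) (lam x.1)) ^ 2 / ((x.2 : ℝ) + 1) * (((x.1.1 : ℕ) : ℝ) ^ (-σ)) ^ (x.2 + 1)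
  continuation : ∀ i j : ℕ, i ≤ j → j ≤ 4 → Even (i + j) → ∃ G : ℂ → ℂ, Continues S lam i j G

/-- The form has the exceptional Laplace eigenvalue `1/4 - θ^2`: the product of `L(s, sym^i × (sym^j)~)` with
its gamma factor (times `s (s - 1)` if `i = j`) is entire. -/
structure Exceptional (S : Finset Nat.Primes) (lam : {p : Nat.Primes // p ∉ S} → ℝ) (θ : ℝ) : Prop where
  pos : 0 < θ
  completed : ∀ i j : ℕ, i ≤ j → j ≤ 4 → Even (i + j) → ∃ G Ξ : ℂ → ℂ, Continues S lam i j G ∧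
    Differentiable ℂ Ξ ∧ ∀ s : ℂ, 1 < s.re → Ξ s = (if i = j then s else 1) * G s *
      ∏ a ∈ Finset.range (i + 1), ∏ b ∈ Finset.range (j + 1),
        Complex.Gammaℝ (s + ((((i : ℝ) - 2 * a) + ((j : ℝ) - 2 * b)) * θ : ℝ))

/-- the polynomial `∑ e_{ij} U_i U_j - ∑ e_{ii}` -/
noncomputable def P (e : ℕ → ℕ → ℕ) (y : ℝ) : ℝ :=
  ∑ i ∈ Finset.range 5, ∑ j ∈ Finset.range 5, (e i j : ℝ) * (U i y * U j y) - ∑ i ∈ Finset.range 5, (e i i : ℝ)

variable {ι : Type*} [Fintype ι] {S : Finset Nat.Primes}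

/-- the primes outside `S` in `[X^(1-δ), X]` with the property `Q` -/
def primesIn (S : Finset Nat.Primes) (δ X : ℝ) (Q : {p : Nat.Primes // p ∉ S} → Prop) :
    Set {p : Nat.Primes // p ∉ S} :=
  {p | X ^ (1 - δ) ≤ ((p.1 : ℕ) : ℝ) ∧ ((p.1 : ℕ) : ℝ) ≤ X ∧ Q p}

open scoped Classical in
/-- Let `e^f_{ij} ≠ 0`, `0 < i + j`, `0 ≤ c < (i + j) θ`, `0 < δ`.
1. For every large `X` the prime powers in `[X^(1-δ), X]` carry a mass `≥ X^c` of negative values of
   `∑_g P_{e^g}`.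
2. If `1/2 ≤ c`, then `∑_g P_{e^g}(lam g p) < 0` for at least `X^c` primes `p` in `[X^(1-δ), X]`.
3. If `1/2 ≤ c < 8 θ` and the family has `r` members, then for at least `X^c` primes `p` in `[X^(1-δ), X]` the
   sum of the `U_4(lam g p)^2` is less than `r` and fewer than `r / 25` members of the family are nontempered
   at `p` (`2 < |lam g p|`). For `r ≤ 25` all the members are tempered at all these primes.
4. If for some `c ≥ 1/2` and `δ > 0` there are arbitrarily large `X` with fewer than `X^c` primes `p` in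
   `[X^(1-δ), X]` with `∑_g U_4(lam g p)^2 < r`, then the Laplace eigenvalue of `f` is at least
   `1/4 - (c / 8)^2`. -/
theorem result {lam : ι → {p : Nat.Primes // p ∉ S} → ℝ} {θ : ℝ} {f : ι}
    (hg : ∀ g, SymmetricPowers S (lam g)) (hf : Exceptional S (lam f) θ) :
    (∀ e : ι → ℕ → ℕ → ℕ, (∀ g i j, e g i j ≠ 0 → i ≤ j ∧ j ≤ 4 ∧ Even (i + j)) →
      ∀ i j : ℕ, e f i j ≠ 0 → 0 < i + j → ∀ c δ : ℝ, 0 ≤ c → c < (i + j) * θ → 0 < δ →
      (∀ᶠ X : ℝ in atTop, X ^ c ≤ ∑' x : {p : Nat.Primes // p ∉ S} × ℕ,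
        if X ^ (1 - δ) ≤ ((x.1.1 : ℕ) : ℝ) ^ (x.2 + 1) ∧ ((x.1.1 : ℕ) : ℝ) ^ (x.2 + 1) ≤ X then
          max 0 (-∑ g, P (e g) (T (x.2 + 1) (lam g x.1))) else 0) ∧
      (1 / 2 ≤ c → ∀ᶠ X : ℝ in atTop, X ^ c ≤
        ((primesIn S δ X fun p => ∑ g, P (e g) (lam g p) < 0).ncard : ℝ))) ∧
    (∀ c δ : ℝ, 1 / 2 ≤ c → 0 < δ → (c < 8 * θ → ∀ᶠ X : ℝ in atTop, X ^ c ≤
        ((primesIn S δ X fun p => ∑ g, U 4 (lam g p) ^ 2 < Fintype.card ι ∧
          25 * (Finset.univ.filter fun g => 2 ≤ |lam g p|).card < Fintype.card ι).ncard : ℝ)) ∧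
      ((∃ᶠ X : ℝ in atTop,
        ((primesIn S δ X fun p => ∑ g, U 4 (lam g p) ^ 2 < Fintype.card ι).ncard : ℝ) < X ^ c) →
        1 / 4 - (c / 8) ^ 2 ≤ 1 / 4 - θ ^ 2)) := by
  have hT : ∀ (g : ι) (x : {p : Nat.Primes // p ∉ S} × ℕ), T (x.2 + 1) (lam g x.1) =
      (Polynomial.Chebyshev.C ℝ ((x.2 : ℤ) + 1)).eval (lam g x.1) := fun g x => by
    unfold T
    push_cast
    rfl
  have hsum : ∀ g, ∀ i : ℕ, i ≤ 4 → ∀ σ : ℝ, 1 < σ → Summable fun x : {p : Nat.Primes // p ∉ S} × ℕ =>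
      R314.SX.tr (lam g) i x ^ 2 / ((x.2 : ℝ) + 1) * (((x.1.1 : ℕ) : ℝ) ^ (-σ)) ^ (x.2 + 1) := by
    intro g i hi σ hσ
    refine ((hg g).summable i hi σ hσ).congr fun x => ?_
    rw [hT]
    rfl
  have hiff : ∀ g i j G, Continues S (lam g) i j G → R484.SJ.IsCont (lam g) i j G := by
    intro g i j G h
    refine ⟨h.1, fun s hs => ?_⟩
    rw [h.2 s hs]
    simp only [hT]
    rfl
  have hcont : ∀ g, ∀ i j : ℕ, i ≤ j → j ≤ 4 → Even (i + j) → ∃ G : ℂ → ℂ, R484.SJ.IsCont (lam g) i j G :=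
    fun g i j h1 h2 h3 => (((hg g).continuation i j h1 h2 h3).imp fun G hG => hiff g i j G hG)
  have hexc : ∀ i j : ℕ, i ≤ j → j ≤ 4 → Even (i + j) → ∃ G Ξ : ℂ → ℂ, R484.SJ.IsCont (lam f) i j G ∧
      Differentiable ℂ Ξ ∧ (∀ s : ℂ, 1 < s.re → Ξ s = (if i = j then s else 1) * G s *
        ∏ a ∈ Finset.range (i + 1), ∏ b ∈ Finset.range (j + 1),
          Complex.Gammaℝ (s + ((((i : ℝ) - 2 * a) + ((j : ℝ) - 2 * b)) * θ : ℝ))) := by
    intro i j h1 h2 h3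
    obtain ⟨G, Ξ, hG, hΞ, hid⟩ := hf.completed i j h1 h2 h3
    exact ⟨G, Ξ, hiff f i j G hG, hΞ, hid⟩
  have main : ∀ e : ι → ℕ → ℕ → ℕ, (∀ g i j, e g i j ≠ 0 → i ≤ j ∧ j ≤ 4 ∧ Even (i + j)) →
      ∀ i j : ℕ, e f i j ≠ 0 → 0 < i + j → ∀ c δ : ℝ, 0 ≤ c → c < (i + j) * θ → 0 < δ →
      (∀ᶠ X : ℝ in atTop, X ^ c ≤ ∑' x : {p : Nat.Primes // p ∉ S} × ℕ,
        if X ^ (1 - δ) ≤ ((x.1.1 : ℕ) : ℝ) ^ (x.2 + 1) ∧ ((x.1.1 : ℕ) : ℝ) ^ (x.2 + 1) ≤ X then
          max 0 (-∑ g, P (e g) (T (x.2 + 1) (lam g x.1))) else 0) ∧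
      (1 / 2 ≤ c → ∀ᶠ X : ℝ in atTop, X ^ c ≤
        ((primesIn S δ X fun p => ∑ g, P (e g) (lam g p) < 0).ncard : ℝ)) := by
    intro e he i j hij _ c δ hc0 hc hδ
    have h := R484.SJ.family_fin hsum hcont hexc he hc0 hij hc hδ
    refine ⟨?_, fun hc2 => ?_⟩
    · refine h.1.mono fun X hX => hX.trans (le_of_eq (tsum_congr fun x => ?_))
      simp only [hT]
      rfl
    · refine (h.2 hc2).mono fun X hX => hX.trans (le_of_eq ?_)
      rfl
  -- the fourth symmetric power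
  set e4 : ι → ℕ → ℕ → ℕ := fun _ i j => if i = 4 ∧ j = 4 then 1 else 0 with he4
  have he4' : ∀ g i j, e4 g i j ≠ 0 → i ≤ j ∧ j ≤ 4 ∧ Even (i + j) := by
    intro g i j h
    rw [he4] at h
    simp only [ne_eq, ite_eq_right_iff, one_ne_zero, imp_false, not_not] at h
    obtain ⟨rfl, rfl⟩ := h
    exact ⟨le_rfl, le_rfl, by decide⟩
  have hP4 : ∀ g y, P (e4 g) y = U 4 y ^ 2 - 1 := by
    intro g y
    unfold P
    rw [he4]
    simp [Finset.sum_range_succ]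
    ring
  have hsumP : ∀ p : {p : Nat.Primes // p ∉ S}, (∑ g, P (e4 g) (lam g p) < 0) ↔
      ∑ g, U 4 (lam g p) ^ 2 < Fintype.card ι := by
    intro p
    simp only [hP4, Finset.sum_sub_distrib, Finset.sum_const, Finset.card_univ, nsmul_eq_mul, mul_one,
      sub_neg]
  have hU4 : ∀ y : ℝ, 2 ≤ |y| → 25 ≤ U 4 y ^ 2 := by
    intro y hy
    have h1 : 4 ≤ y ^ 2 := by
      rw [← sq_abs]
      nlinarith [abs_nonneg y]
    have h2 : U 4 y = y ^ 4 - 3 * y ^ 2 + 1 := by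
      unfold U
      have := R314.SX.S_four
      push_cast
      rw [this]
      simp
    have h3 : 5 ≤ U 4 y := by
      rw [h2]
      nlinarith
    nlinarith
  have hcard : ∀ p : {p : Nat.Primes // p ∉ S}, ∑ g, U 4 (lam g p) ^ 2 < Fintype.card ι →
      25 * (Finset.univ.filter fun g => 2 ≤ |lam g p|).card < Fintype.card ι := by
    intro p hp
    have h1 : (25 : ℝ) * (Finset.univ.filter fun g => 2 ≤ |lam g p|).card ≤ ∑ g, U 4 (lam g p) ^ 2 := by
      calc (25 : ℝ) * (Finset.univ.filter fun g => 2 ≤ |lam g p|).card =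
            ∑ g ∈ Finset.univ.filter (fun g => 2 ≤ |lam g p|), (25 : ℝ) := by
              rw [Finset.sum_const, nsmul_eq_mul, mul_comm]
        _ ≤ ∑ g ∈ Finset.univ.filter (fun g => 2 ≤ |lam g p|), U 4 (lam g p) ^ 2 :=
              Finset.sum_le_sum fun g hg' => hU4 _ (Finset.mem_filter.1 hg').2
        _ ≤ ∑ g, U 4 (lam g p) ^ 2 :=
              Finset.sum_le_sum_of_subset_of_nonneg (Finset.filter_subset _ _) fun _ _ _ => sq_nonneg _
    have h2 : ((25 * (Finset.univ.filter fun g => 2 ≤ |lam g p|).card : ℕ) : ℝ) < (Fintype.card ι : ℝ) := by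
      push_cast
      linarith
    exact_mod_cast h2
  have hset : ∀ δ X : ℝ, (primesIn S δ X fun p => ∑ g, P (e4 g) (lam g p) < 0) =
      primesIn S δ X fun p => ∑ g, U 4 (lam g p) ^ 2 < Fintype.card ι := by
    intro δ X
    unfold primesIn
    simp only [hsumP]
  have hset2 : ∀ δ X : ℝ, (primesIn S δ X fun p => ∑ g, U 4 (lam g p) ^ 2 < Fintype.card ι) =
      primesIn S δ X fun p => ∑ g, U 4 (lam g p) ^ 2 < Fintype.card ι ∧
          25 * (Finset.univ.filter fun g => 2 ≤ |lam g p|).card < Fintype.card ι := by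
    intro δ X
    ext p
    exact ⟨fun h => ⟨h.1, h.2.1, h.2.2, hcard p h.2.2⟩, fun h => ⟨h.1, h.2.1, h.2.2.1⟩⟩
  have h8 : ∀ c δ : ℝ, 1 / 2 ≤ c → 0 < δ → c < 8 * θ → ∀ᶠ X : ℝ in atTop, X ^ c ≤
        ((primesIn S δ X fun p => ∑ g, U 4 (lam g p) ^ 2 < Fintype.card ι).ncard : ℝ) := by
    intro c δ hc hδ hcθ
    have h := (main e4 he4' 4 4 (by simp [he4]) (by norm_num) c δ (by linarith)
      (by norm_num; linarith) hδ).2 hc
    exact h.mono fun X hX => by rwa [hset] at hX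
  refine ⟨main, fun c δ hc hδ => ⟨fun hcθ => ?_, fun hfr => ?_⟩⟩
  · exact (h8 c δ hc hδ hcθ).mono fun X hX => by rwa [hset2] at hX
  · have h2 : 8 * θ ≤ c := by
      by_contra hcon
      rw [not_le] at hcon
      obtain ⟨X, hX1, hX2⟩ := (hfr.and_eventually (h8 c δ hc hδ hcon)).exists
      exact absurd hX1 (not_lt.2 hX2)
    have h3 : 0 < θ := hf.pos
    nlinarith

end Pool.Agent.Results.MP_a812b2_nt.JointTemperedness
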